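import Pool.Agent.H780R2.CX.Main

open scoped ENNReal
open MeasureTheory Set

namespace Pool.Agent.Results.MP_c1e612_an.ExactGainOne

open Pool.Agent.H780R2.CX

universe u v w

theorem result :
    -- (1) taken literally the question has a trivial positive answer: rapidly decaying errors
    (∃ (X Y : Type) (_ : NormedAddCommGroup X) (_ : NormedSpace ℝ X)
      (_ : CompleteSpace X) (_ : NormedAddCommGroup Y) (_ : NormedSpace ℝ Y) (_ : CompleteSpace Y)
      (S : X →L[ℝ] Y) (F : Set X), F.Nonempty ∧ Convex ℝ F ∧ (∀ f ∈ F, -f ∈ F) ∧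
      (∀ n : ℕ, detErr S F n = ENNReal.ofReal ((1 / 2) ^ n)) ∧
      (∀ n : ℕ, 1 ≤ n →
        ranErr.{0, 0, 0} S F (2 * n) ≤ ENNReal.ofReal (1 / n) * detErr S F n)) ∧
    -- (2) in all other cases the answer is negative, along arbitrarily large `n`
    (∀ (X : Type u) (Y : Type v) [NormedAddCommGroup X] [NormedSpace ℝ X] [CompleteSpace X]
      [NormedAddCommGroup Y] [NormedSpace ℝ Y] [CompleteSpace Y]
      (S : X →L[ℝ] Y) (F : Set X), F.Nonempty → Convex ℝ F →
      (∀ n : ℕ, 1 ≤ n → 0 < detErr S F n ∧ detErr S F n < ⊤) →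
      (∃ β : ℝ, ¬ ∃ A : ℝ, ∀ n : ℕ, 1 ≤ n →
        detErr S F n ≤ ENNReal.ofReal (A * (n : ℝ) ^ (-β))) →
      ∀ (C : ℝ) (N : ℕ), ∃ n : ℕ, N ≤ n ∧ 1 ≤ n ∧
        ENNReal.ofReal (C / n) * detErr S F n < ranErr.{u, v, w} S F (2 * n)) := by
  refine ⟨trivial_example, ?_⟩
  intro X Y _ _ _ _ _ _ S F hne hconv hfin hβ C N
  obtain ⟨β, hβ⟩ := hβ
  by_contra hcon
  push Not at hcon
  exact hβ (main.{u, v, w} S F hne hconv hfin C (max N 1)
    (fun n hn => hcon n (le_trans (le_max_left _ _) hn) (le_trans (le_max_right _ _) hn)) β)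

end Pool.Agent.Results.MP_c1e612_an.ExactGainOne
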